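import Pool.Agent.Helper10.SE.Defs4
import Pool.Agent.Helper10.TWX.X19

/-!
# Project SE, block CH: the degrees, outside a hypersurface, for all products of powers
-/

universe u

set_option linter.unusedSectionVars false

namespace Pool.Agent.SE

open VC Polynomial Pool.Agent.LT Pool.Agent.SC Pool.Agent.Helper91.Sect Pool.Agent Pool.Agent.GC
  Pool.Agent.TWH Pool.Agent.TWU Pool.Agent.TWX

/-- **Block CH.** -/
theorem ch (h : StmtCG.{u}) : StmtCH.{u} := by
  classical
  intro F₀ k₀ K₀ _ _ _ _ _ _ hk₀ m w i j l hw hK₀ r g hg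
  have hk₀0 : CharZero k₀ := charZero_of_injective_algebraMap (algebraMap F₀ k₀).injective
  have hl0 : w l ≠ 0 := by
    intro h
    rw [h, div_zero] at hw
    exact transc_F_t hw isAlgebraic_zero
  obtain ⟨M, U₀, hM, hU, hcore⟩ := h hK₀ r g hg
  obtain ⟨F₁, htu, hall, hbase⟩ := exists_base_fieldU hk₀ hw
  have hF₁0 : CharZero F₁ := charZero_of_injective_algebraMap (algebraMap F₀ F₁).injective
  obtain ⟨Sk, hSk⟩ := id hk₀
  set Q : k₀[X] := ∏ q ∈ M, q with hQ
  have hQ0 : Q ≠ 0 := Finset.prod_ne_zero_iff.2 hM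
  set N₀ := Q.SplittingField with hN₀
  set U₁ : Finset k₀ := insert (w l) U₀ with hU₁
  have hU₁0 : ∀ a ∈ U₁, a ≠ 0 := by
    intro a ha h0
    rcases Finset.mem_insert.1 ha with h1 | h1
    · exact hl0 (by rw [← h1, h0])
    · exact hU (by rw [← h0]; exact h1)
  set E₁ : Finset k₀ := Sk ∪ {w i / w l} with hE₁
  set E₂ : Finset N₀ := (Sk ∪ (U₁ ∪ U₁.image (·⁻¹))).image (algebraMap k₀ N₀) ∪
    (Q.rootSet N₀).toFinset with hE₂
  have hwl : (fun e => w e / w l) l = 1 := div_self hl0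
  obtain ⟨Ψ₁, hΨ₁, Ψ₂, hΨ₂, h12⟩ := exists_goodAt (ι := Fin (m + 1)) (w := fun e => w e / w l)
    (i := i) (j := j) (l := l) hwl htu hall E₁
  obtain ⟨Ψ₃, hΨ₃, Ψ₄, hΨ₄, h34⟩ := exists_goodAtN (ι := Fin (m + 1)) (w := fun e => w e / w l)
    (i := i) (j := j) (l := l) hwl htu hall E₂
  have hmapne : ∀ P : MvPolynomial (Fin (m + 1)) F₁, P ≠ 0 →
      MvPolynomial.map (algebraMap F₁ k₀) P ≠ 0 := fun P hP h0 =>
    hP (MvPolynomial.map_injective _ (algebraMap F₁ k₀).injective (by rw [h0, map_zero]))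
  obtain ⟨Ψ₁', hΨ₁', h1⟩ := OPG.exists_restrictU (F₀ := F₀) hk₀ (hmapne Ψ₁ hΨ₁)
  obtain ⟨Ψ₂', hΨ₂', h2⟩ := OPG.exists_restrictU (F₀ := F₀) hk₀ hΨ₂
  obtain ⟨Ψ₃', hΨ₃', h3⟩ := OPG.exists_restrictU (F₀ := F₀) hk₀ (hmapne Ψ₃ hΨ₃)
  obtain ⟨Ψ₄', hΨ₄', h4⟩ := OPG.exists_restrictU (F₀ := F₀) hk₀ hΨ₄
  refine ⟨(Ψ₁' * Ψ₂') * (Ψ₃' * Ψ₄'), mul_ne_zero (mul_ne_zero hΨ₁' hΨ₂') (mul_ne_zero hΨ₃' hΨ₄'), ?_⟩
  intro F k K₁ _ _ _ _ _ _ _ _ _ _ _ _ _ _ hF hgenk hfree hgenK htr a ha e
  rw [map_mul, map_mul, map_mul] at ha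
  obtain ⟨ha12, ha34⟩ := mul_ne_zero_iff.1 ha
  obtain ⟨ha1, ha2⟩ := mul_ne_zero_iff.1 ha12
  obtain ⟨ha3, ha4⟩ := mul_ne_zero_iff.1 ha34
  have hF0 : CharZero F := charZero_of_injective_algebraMap (algebraMap F₀ F).injective
  have hk0 : CharZero k := charZero_of_injective_algebraMap (algebraMap F k).injective
  have hk := fg_composite hF hk₀ hgenk
  obtain ⟨F', hF', hF'k, htu', hfin, hF₁F'⟩ := hbase F k hF hgenk (fun hx => hfree hx)
  let i1 : Algebra F₁ F' :=
    (((algebraMap k₀ k).comp (algebraMap F₁ k₀)).codRestrict F'.toSubring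
      fun z => hF₁F' _ z.2).toAlgebra
  have s1 : IsScalarTower F₁ F' k := IsScalarTower.of_algebraMap_eq fun _ => rfl
  have s2 : IsScalarTower F₁ k₀ k := IsScalarTower.of_algebraMap_eq fun _ => rfl
  set b : Fin (m + 1) → F' := fun e => algebraMap F F' (a e) with hb
  have hbk : ∀ e, algebraMap F' k (b e) = algebraMap F k (a e) := fun e => rfl
  have hb1 : ∀ P : MvPolynomial (Fin (m + 1)) F₁, MvPolynomial.eval₂ (algebraMap k₀ k)
      (fun i => (algebraMap F k) (a i)) (MvPolynomial.map (algebraMap F₁ k₀) P) ≠ 0 →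
      MvPolynomial.aeval b P ≠ 0 := by
    intro P hP h0
    apply hP
    have h3 := congrArg (algebraMap F' k) h0
    rw [map_zero] at h3
    rw [MvPolynomial.eval₂_map, ← h3, ← MvPolynomial.aeval_algebraMap_apply,
      MvPolynomial.aeval_def]
    rfl
  have hb2 : ∀ P : MvPolynomial (Fin (m + 1)) k₀, MvPolynomial.eval₂ (algebraMap k₀ k)
      (fun i => (algebraMap F k) (a i)) P ≠ 0 →
      MvPolynomial.aeval (fun e => algebraMap F' k (b e)) P ≠ 0 := by
    intro P hP
    rw [MvPolynomial.aeval_def]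
    exact hP
  obtain ⟨⟨Δ₁, hΔ₁, hgood₁⟩, halg⟩ := h12 F' k b (hb1 _ (h1 F k (fun hx => hfree hx) a ha1))
    (hb2 _ (h2 F k (fun hx => hfree hx) a ha2))
  set v : k := ∑ e, algebraMap F' k (b e) * algebraMap k₀ k (w e / w l) with hv
  set c' : k := algebraMap k₀ k (w l) with hc'
  have hc'0 : c' ≠ 0 := (_root_.map_ne_zero _).2 hl0
  have hsum : ∑ e, algebraMap F k (a e) * algebraMap k₀ k (w e) = c' * v := by
    rw [hv, Finset.mul_sum]
    refine Finset.sum_congr rfl fun e _ => ?_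
    rw [hbk, map_div₀, hc']
    have h3 : algebraMap k₀ k (w l) ≠ 0 := hc'0
    field_simp
  have hti : IsAlgebraic (IntermediateField.adjoin F' {v, algebraMap k₀ k (w j / w l)})
      (algebraMap k₀ k (w i / w l)) :=
    halg _ (Finset.mem_union_right _ (Finset.mem_singleton_self _))
  have hall1 : ∀ z : k, IsAlgebraic (IntermediateField.adjoin F'
      {algebraMap k₀ k (w i / w l), algebraMap k₀ k (w j / w l)}) z :=
    fun z => Algebra.IsAlgebraic.isAlgebraic z
  obtain ⟨hvu, hall'⟩ := algInd_exchange htu' hall1 hti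
  have hfin' := finite_k0 hk hall'
  -- the finite set generates
  have hgenE : ∀ (L : Type u) [Field L] [Algebra k L] (T : Set L), (∀ z ∈ Sk, algebraMap k L (algebraMap k₀ k z) ∈ T) →
      ∀ z : k, algebraMap k L z ∈ IntermediateField.adjoin F' T := by
    intro L _ _ T hT
    have h3 : ∀ z : k₀, algebraMap k L (algebraMap k₀ k z) ∈ IntermediateField.adjoin F' T := by
      have h4 : (⊤ : Subfield k₀) ≤
          (IntermediateField.adjoin F' T).toSubfield.comap
            ((algebraMap k L).comp (algebraMap k₀ k)) := by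
        rw [← hSk, Subfield.closure_le]
        intro z hz
        exact IntermediateField.subset_adjoin _ _ (hT z hz)
      exact fun z => h4 trivial
    let Z : IntermediateField F k :=
      { (IntermediateField.adjoin F' T).toSubfield.comap (algebraMap k L) with
        algebraMap_mem' := fun c => by
          change algebraMap k L (algebraMap F k c) ∈ IntermediateField.adjoin F' T
          have h5 : algebraMap k L (algebraMap F k c) = algebraMap F' L (algebraMap F F' c) := rfl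
          rw [h5]
          exact IntermediateField.algebraMap_mem _ _ }
    have h4 : IntermediateField.adjoin F (Set.range (algebraMap k₀ k)) ≤ Z := by
      rw [IntermediateField.adjoin_le_iff]
      rintro _ ⟨z, rfl⟩
      exact h3 z
    intro z
    rw [hgenk] at h4
    exact h4 (IntermediateField.mem_top (x := z))
  have hE1 : IntermediateField.adjoin F' ((E₁.image (algebraMap k₀ k) : Finset k) : Set k) = ⊤ := by
    rw [eq_top_iff]
    intro z _
    refine hgenE k _ (fun y hy => ?_) z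
    exact Finset.mem_coe.2 (Finset.mem_image_of_mem _ (Finset.mem_union_left _ hy))
  have hreg : ∀ z : k, IsAlgebraic (IntermediateField.adjoin F' {v}) z →
      z ∈ IntermediateField.adjoin F' {v} := fun z hz =>
    algClosed_of_goodAt hvu hfin' (fun z hz => ⟨⟨z, hF'k z hz⟩, rfl⟩) hΔ₁ hE1 hgood₁ z hz
  -- the algebraic closure
  let C := AlgebraicClosure k
  let φ : N₀ →ₐ[k₀] C := IsAlgClosed.lift
  let iN : Algebra N₀ C := φ.toRingHom.toAlgebra
  have hNC : ∀ c : k₀, algebraMap N₀ C (algebraMap k₀ N₀ c) = algebraMap k C (algebraMap k₀ k c) := by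
    intro c
    rw [← IsScalarTower.algebraMap_apply k₀ k C]
    exact φ.commutes c
  obtain ⟨Δ, hΔ, hgood⟩ := h34 F' k C hNC b (hb1 _ (h3 F k (fun hx => hfree hx) a ha3))
    (hb2 _ (h4 F k (fun hx => hfree hx) a ha4))
  have hmemE : ∀ a ∈ Sk ∪ (U₁ ∪ U₁.image (·⁻¹)), algebraMap k C (algebraMap k₀ k a) ∈
      E₂.image (algebraMap N₀ C) := by
    intro a ha
    rw [← hNC]
    exact Finset.mem_image_of_mem _ (Finset.mem_union_left _ (Finset.mem_image_of_mem _ ha))
  obtain ⟨W, hW⟩ := goodPl_of_goodAt (M := M) (U₀ := U₁) (ι := algebraMap k₀ k) hF' hvu hfin' hreg hΔ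
    (E := E₂.image (algebraMap N₀ C)) (fun z => hgenE C _ (fun y hy => Finset.mem_coe.2
      (hmemE y (Finset.mem_union_left _ hy))) z) hgood (fun a ha => ⟨hU₁0 a ha, hmemE a
        (Finset.mem_union_right _ (Finset.mem_union_left _ ha)), hmemE a⁻¹
        (Finset.mem_union_right _ (Finset.mem_union_right _ (Finset.mem_image_of_mem _ ha)))⟩) (by
      intro q hq x hx
      have h5 : x ∈ Q.rootSet C := by
        rw [mem_rootSet]
        refine ⟨hQ0, ?_⟩
        rw [hQ, map_prod]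
        refine Finset.prod_eq_zero hq ?_
        rw [aeval_def, IsScalarTower.algebraMap_eq k₀ k C]
        exact hx
      rw [← (SplittingField.splits Q).image_rootSet φ] at h5
      obtain ⟨y, hy, rfl⟩ := h5
      exact Finset.mem_image.2 ⟨y, Finset.mem_union_right _ (Set.mem_toFinset.2 hy), rfl⟩)
  have hv0 : v ≠ 0 := by
    rintro h0
    rw [h0] at hvu
    exact transc_F_t hvu isAlgebraic_zero
  rw [hsum]
  exact hcore (IntermediateField.adjoin F' {algebraMap k₀ k (w j / w l)}) k K₁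
    (fg_adjoin hF' _) v (fin_adjoin0' hfin') hgenK htr _ (mul_ne_zero hc'0 hv0) W hW.smul e

end Pool.Agent.SE
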