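import Pool.Agent.Helper10.SE.Defs4
import Pool.Agent.Helper10.TWX.X16

/-!
# Project SE, block CT: the degrees, outside a thin set, for all products of powers
-/

universe u

set_option linter.unusedSectionVars false

namespace Pool.Agent.SE

open VC Polynomial Pool.Agent.LT Pool.Agent.SC Pool.Agent.Helper91.Sect Pool.Agent Pool.Agent.GC
  Pool.Agent.TW Pool.Agent.TWU Pool.Agent.TWT Pool.Agent.TWX

/-- Some twist of some product of powers has a section over a field of a wrong degree. -/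
def BadDegG {k₀ K₀ : Type u} [Field k₀] [Field K₀] [Algebra k₀ K₀] {r : ℕ} (g : Fin r → K₀)
    (k' : Type u) [Field k'] (ι : k₀ →+* k') (f : Unit → k') : Prop :=
  ∃ (K₁ : Type u) (_ : Field K₁) (_ : Algebra k' K₁) (τ : K₀ →+* K₁),
    (∀ c : k₀, τ (algebraMap k₀ K₀ c) = algebraMap k' K₁ (ι c)) ∧
    IntermediateField.adjoin k' (Set.range τ) = ⊤ ∧
    (∃ y : K₀, Transcendental k' (τ y)) ∧ ∃ e : Fin r → ℤ, ¬ DegTwist (∏ s, τ (g s) ^ e s) (f ())

/-- The key statement for the degrees. -/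
theorem keyT_degG (h : StmtCG.{u}) {k₀ K₀ : Type u} [Field k₀] [CharZero k₀] [Field K₀]
    [Algebra k₀ K₀] (hK₀ : IsFunctionField k₀ K₀) {r : ℕ} {g : Fin r → K₀} (hg : ∀ s, g s ≠ 0) :
    KeyT k₀ (I := Unit) (BadDegG g) := by
  obtain ⟨M, U₀, hM, hU, hcore⟩ := h hK₀ r g hg
  refine keyT_of_coreP hM hU ?_
  intro F k _ _ _ ι hF t hfin v hv0 W hW hbad
  obtain ⟨K₁, _, _, τ, hτ, hgen, htr, e, hno⟩ := hbad
  apply hno
  let i1 : Algebra k₀ k := ι.toAlgebra
  let i2 : Algebra K₀ K₁ := τ.toAlgebra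
  let i3 : Algebra k₀ K₁ := (τ.comp (algebraMap k₀ K₀)).toAlgebra
  have s1 : IsScalarTower k₀ k K₁ := IsScalarTower.of_algebraMap_eq hτ
  have s2 : IsScalarTower k₀ K₀ K₁ := IsScalarTower.of_algebraMap_eq fun _ => rfl
  exact hcore F k K₁ hF t hfin hgen htr v hv0 W hW e

/-- **Block CT.** -/
theorem ct (h : StmtCG.{u}) : StmtCT.{u} := by
  intro F₀ k₀ K₀ _ _ _ _ _ _ hk₀ m w i l hw hK₀ r g hg
  have hk₀0 : CharZero k₀ := charZero_of_injective_algebraMap (algebraMap F₀ k₀).injective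
  obtain ⟨Φ, hΦ, h1⟩ := thin_of_keyT (keyT_degG h hK₀ hg) hk₀ (w := w) hw
  refine ⟨_, hΦ.rename (Equiv.punitProd (Fin (m + 1))), ?_⟩
  intro F k K₁ _ _ _ _ _ _ _ _ _ _ _ _ _ _ hF hgenk hfree hgenK htr a ha e
  by_contra hcon
  obtain ⟨x, hx⟩ := h1 F k hF hgenk (fun hx => hfree hx) (fun p => a p.2) ⟨K₁, inferInstance,
    inferInstance, algebraMap K₀ K₁, fun c => by
      rw [← IsScalarTower.algebraMap_apply, IsScalarTower.algebraMap_apply k₀ k K₁], hgenK, htr,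
      e, hcon⟩
  apply ha x
  rw [Polynomial.eval₂_map, ← hx]
  congr 1
  refine RingHom.ext fun p => ?_
  change MvPolynomial.aeval a (MvPolynomial.rename _ p) = MvPolynomial.aeval _ p
  rw [MvPolynomial.aeval_rename]
  rfl

end Pool.Agent.SE
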